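import Pool.Agent.U307.RAD.Stm4

/-!
# Project RAD, package LEG: the Legendre polynomials are bounded by `1`

The proof is that of Sonin: for `n ≥ 1` the function `L ^ 2 + s (1 - s) L' ^ 2 / (n (n + 1))` decreases on
`[0, 1/2]` and increases on `[1/2, 1]`, and it is `1` at both ends.
-/

set_option autoImplicit false

open Polynomial Set

namespace Pool.Agent.U187.RAD

open Pool.Agent.U307.RAD

/-- the shifted Legendre polynomial with real coefficients -/
noncomputable def lg (n : ℕ) : ℝ[X] := (shiftedLegendre n).map (Int.castRingHom ℝ)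

theorem lg_coeff (n k : ℕ) : (lg n).coeff k = (-1) ^ k * n.choose k * (n + k).choose n := by
  unfold lg
  rw [coeff_map, coeff_shiftedLegendre]
  simp

theorem lg_rec (n i : ℕ) : ((i : ℝ) + 1) ^ 2 * (lg n).coeff (i + 1) =
    ((i : ℝ) * (i + 1) - n * (n + 1)) * (lg n).coeff i := by
  rw [lg_coeff, lg_coeff]
  have h1 : ((n.choose (i + 1) : ℕ) : ℝ) * (i + 1) = (n.choose i : ℝ) * ((n : ℝ) - i) := by
    rcases le_or_gt i n with hi | hi
    · have := Nat.choose_succ_right_eq n i
      have h2 : ((n.choose (i + 1) * (i + 1) : ℕ) : ℝ) = ((n.choose i * (n - i) : ℕ) : ℝ) := by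
        rw [this]
      push_cast [Nat.cast_sub hi] at h2
      exact h2
    · rw [Nat.choose_eq_zero_of_lt hi, Nat.choose_eq_zero_of_lt (by omega)]
      simp
  have h2 : (((n + (i + 1)).choose n : ℕ) : ℝ) * (i + 1) = ((n + i).choose n : ℝ) * ((n : ℝ) + i + 1) := by
    have h3 : (n + (i + 1)).choose n = (n + i + 1).choose (i + 1) := Nat.choose_symm_add
    have h4 : (n + i).choose n = (n + i).choose i := Nat.choose_symm_add
    rw [h3, h4]
    have h5 := Nat.add_one_mul_choose_eq (n + i) i
    have h6 : (((n + i + 1) * (n + i).choose i : ℕ) : ℝ) =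
        (((n + i + 1).choose (i + 1) * (i + 1) : ℕ) : ℝ) := by rw [h5]
    push_cast at h6
    linarith
  have e : ((i : ℝ) + 1) ^ 2 * ((-1) ^ (i + 1) * ((n.choose (i + 1) : ℕ) : ℝ) *
      (((n + (i + 1)).choose n : ℕ) : ℝ)) =
      (-1) ^ (i + 1) * (((n.choose (i + 1) : ℕ) : ℝ) * (i + 1)) *
        ((((n + (i + 1)).choose n : ℕ) : ℝ) * (i + 1)) := by ring
  rw [e, h1, h2]
  ring

theorem lg_ode (n : ℕ) : (1 - 2 * X) * derivative (lg n) + X * (1 - X) * derivative (derivative (lg n)) +
    C ((n : ℝ) * (n + 1)) * lg n = 0 := by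
  have key : derivative (X * derivative (lg n) - X * (X * derivative (lg n))) +
      C ((n : ℝ) * (n + 1)) * lg n = 0 := by
    ext i
    rw [coeff_add, coeff_derivative, coeff_sub, coeff_X_mul, coeff_X_mul, coeff_derivative, coeff_C_mul,
      coeff_zero]
    have h := lg_rec n i
    rcases i with _ | i
    · rw [mul_coeff_zero, coeff_X_zero]
      push_cast at h ⊢
      linarith
    · rw [coeff_X_mul, coeff_derivative]
      push_cast at h ⊢
      linarith
  have h2 : derivative (X * derivative (lg n) - X * (X * derivative (lg n))) =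
      (1 - 2 * X) * derivative (lg n) + X * (1 - X) * derivative (derivative (lg n)) := by
    simp only [derivative_sub, derivative_mul, derivative_X]
    ring
  rw [← h2]
  exact key

theorem lg_zero (n : ℕ) : (lg n).eval 0 = 1 := by
  rw [← coeff_zero_eq_eval_zero, lg_coeff]
  simp

theorem lg_one (n : ℕ) : (lg n).eval 1 ^ 2 = 1 := by
  have h := shiftedLegendre_eval_symm n (1 : ℝ)
  have e : ∀ x : ℝ, aeval x (shiftedLegendre n) = (lg n).eval x := by
    intro x
    unfold lg
    rw [eval_map, aeval_def]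
    rfl
  rw [e, e, sub_self, lg_zero] at h
  rw [h, mul_one, ← pow_mul, mul_comm, pow_mul]
  simp

/-- the function of Sonin -/
noncomputable def so (n : ℕ) : ℝ[X] :=
  C ((n : ℝ) * (n + 1)) * lg n ^ 2 + X * (1 - X) * derivative (lg n) ^ 2

theorem so_deriv (n : ℕ) : derivative (so n) = (2 * X - 1) * derivative (lg n) ^ 2 := by
  have h := lg_ode n
  unfold so
  simp only [derivative_add, derivative_mul, derivative_sub, derivative_X, derivative_C, derivative_pow,
    derivative_one]
  have h2 := congrArg (fun P => 2 * derivative (lg n) * P) h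
  simp only [mul_zero] at h2
  simp only [Nat.cast_ofNat, map_ofNat, Nat.add_one_sub_one, pow_one]
  linear_combination h2

theorem lg_bound (n : ℕ) (hn : 1 ≤ n) (s : ℝ) (h0 : 0 ≤ s) (h1 : s ≤ 1) : (lg n).eval s ^ 2 ≤ 1 := by
  have hN : 0 < (n : ℝ) * (n + 1) := by
    have : (1 : ℝ) ≤ n := by exact_mod_cast hn
    positivity
  have hd : ∀ x : ℝ, deriv (fun y => (so n).eval y) x = (2 * x - 1) * (derivative (lg n)).eval x ^ 2 := by
    intro x
    rw [Polynomial.deriv, so_deriv]
    simp
  have hs : (n : ℝ) * (n + 1) * (lg n).eval s ^ 2 ≤ (so n).eval s := by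
    unfold so
    simp only [eval_add, eval_mul, eval_C, eval_pow, eval_X, eval_sub, eval_one]
    have : 0 ≤ s * (1 - s) * (derivative (lg n)).eval s ^ 2 :=
      mul_nonneg (mul_nonneg h0 (by linarith)) (sq_nonneg _)
    linarith
  have hmain : (so n).eval s ≤ (n : ℝ) * (n + 1) := by
    rcases le_total s (1 / 2) with h2 | h2
    · have hanti : AntitoneOn (fun y => (so n).eval y) (Icc (0 : ℝ) (1 / 2)) := by
        refine antitoneOn_of_deriv_nonpos (convex_Icc _ _) (so n).continuous.continuousOn
          (so n).differentiable.differentiableOn ?_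
        intro x hx
        rw [interior_Icc] at hx
        rw [hd]
        exact mul_nonpos_of_nonpos_of_nonneg (by linarith [hx.2]) (sq_nonneg _)
      have h3 := hanti (left_mem_Icc.2 (by norm_num)) ⟨h0, h2⟩ h0
      have h4 : (so n).eval 0 = (n : ℝ) * (n + 1) := by
        unfold so
        simp only [eval_add, eval_mul, eval_C, eval_pow, eval_X, eval_sub, eval_one, lg_zero]
        ring
      simp only at h3
      linarith
    · have hmono : MonotoneOn (fun y => (so n).eval y) (Icc (1 / 2 : ℝ) 1) := by
        refine monotoneOn_of_deriv_nonneg (convex_Icc _ _) (so n).continuous.continuousOn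
          (so n).differentiable.differentiableOn ?_
        intro x hx
        rw [interior_Icc] at hx
        rw [hd]
        exact mul_nonneg (by linarith [hx.1]) (sq_nonneg _)
      have h3 := hmono ⟨h2, h1⟩ (right_mem_Icc.2 (by norm_num)) h1
      have h4 : (so n).eval 1 = (n : ℝ) * (n + 1) := by
        unfold so
        simp only [eval_add, eval_mul, eval_C, eval_pow, eval_X, eval_sub, eval_one, lg_one]
        ring
      simp only at h3
      linarith
  have h5 : (n : ℝ) * (n + 1) * (lg n).eval s ^ 2 ≤ (n : ℝ) * (n + 1) * 1 := by linarith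
  exact le_of_mul_le_mul_left h5 hN

theorem ph_eq (n : ℕ) (r : ℝ) : ph n 0 r = (-1) ^ n * (lg n).eval (r ^ 2) := by
  have hdeg : (lg n).natDegree < n + 1 := by
    unfold lg
    have h1 : ((shiftedLegendre n).map (Int.castRingHom ℝ)).natDegree ≤ (shiftedLegendre n).natDegree :=
      natDegree_map_le
    rw [natDegree_shiftedLegendre] at h1
    omega
  rw [eval_eq_sum_range' hdeg, Finset.mul_sum]
  unfold ph
  refine Finset.sum_congr rfl fun i hi => ?_
  have hin : i ≤ n := by
    have := Finset.mem_range.1 hi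
    omega
  rw [lg_coeff, zero_add, pow_mul]
  have hs : ((-1 : ℝ)) ^ (n - i) = (-1) ^ n * (-1) ^ i := by
    have e1 : ((-1 : ℝ)) ^ n = (-1) ^ (n - i) * (-1) ^ i := by
      rw [← pow_add, Nat.sub_add_cancel hin]
    rw [e1, mul_assoc, ← pow_add, ← two_mul, pow_mul]
    simp
  have hc : (((n + 0 + i).factorial : ℕ) : ℝ) /
      (((n - i).factorial : ℝ) * ((0 + i).factorial : ℝ) * (i.factorial : ℝ)) =
      (n.choose i : ℝ) * ((n + i).choose n : ℝ) := by
    rw [Nat.cast_choose ℝ hin, Nat.cast_choose ℝ (Nat.le_add_right n i), Nat.add_sub_cancel_left, add_zero,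
      zero_add]
    have a1 : ((n.factorial : ℕ) : ℝ) ≠ 0 := by positivity
    have a2 : ((i.factorial : ℕ) : ℝ) ≠ 0 := by positivity
    have a3 : (((n - i).factorial : ℕ) : ℝ) ≠ 0 := by positivity
    field_simp
  have ha : aa n 0 i = (-1) ^ (n - i) * ((((n + 0 + i).factorial : ℕ) : ℝ) /
      (((n - i).factorial : ℝ) * ((0 + i).factorial : ℝ) * (i.factorial : ℝ))) := by
    unfold aa
    rw [mul_div_assoc]
  rw [ha, hc, hs]
  ring

theorem t_LEG : S_LEG := by
  intro n r h0 h1
  rw [ph_eq, abs_mul, abs_pow, abs_neg, abs_one, one_pow, one_mul]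
  rcases Nat.eq_zero_or_pos n with hn | hn
  · subst hn
    have : lg 0 = 1 := by
      unfold lg shiftedLegendre
      simp
    rw [this]
    simp
  · have hr : r ^ 2 ≤ 1 := by nlinarith
    have := lg_bound n hn (r ^ 2) (sq_nonneg r) hr
    rw [abs_le]
    constructor <;> nlinarith

end Pool.Agent.U187.RAD
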